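import Pool.Agent.SZT.StmtsC
import Pool.Agent.Helper69_SZT.DSH

/-!
# SZT, row LIF: A-OUT at the infinite places
-/

set_option autoImplicit false

namespace Pool.Agent.SZT.H95

open Polynomial NumberField

theorem res_map {K L : Type} [Field K] [Field L] (φ : K →+* L) (A P : K[X]) :
    resultant (A.map φ) (P.map φ) = φ (resultant A P) := by
  rw [natDegree_map, natDegree_map, resultant_map_map]

theorem rho_eq_spr {θ : Fin 5 → ℂ} :
    rho (fun z : ℂ => ‖z‖) θ = spr (∏ i, (X - C (θ i))) := by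
  have hroot : ∀ a : ℂ, (∏ i, (X - C (θ i))).IsRoot a ↔ ∃ i, a = θ i := by
    intro a
    rw [IsRoot.def, eval_prod, Finset.prod_eq_zero_iff]
    constructor
    · rintro ⟨i, -, hi⟩
      refine ⟨i, ?_⟩
      rw [eval_sub, eval_X, eval_C] at hi
      exact sub_eq_zero.1 hi
    · rintro ⟨i, rfl⟩
      exact ⟨i, Finset.mem_univ _, by simp⟩
  unfold rho spr
  rw [iSup]
  congr 1
  ext r
  constructor
  · rintro ⟨⟨i, j⟩, rfl⟩
    exact ⟨θ i, θ j, (hroot _).2 ⟨i, rfl⟩, (hroot _).2 ⟨j, rfl⟩, rfl⟩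
  · rintro ⟨a, b, ha, hb, rfl⟩
    obtain ⟨i, rfl⟩ := (hroot _).1 ha
    obtain ⟨j, rfl⟩ := (hroot _).1 hb
    exact ⟨(i, j), rfl⟩

theorem lif (aot : AOutStatement) (dsr : DsrStatement) : LifStatement := by
  obtain ⟨c2, ci, -, hci, -, hC⟩ := aot
  refine ⟨ci, hci, ?_⟩
  intro K _ _ v f A B U W M hf h5 hs hG hAU hM hMe hP
  obtain ⟨θ, hθ⟩ := H69.exists_theta (hf.map v.embedding) (by rw [hf.natDegree_map, h5])
  have hinj : Function.Injective θ := by
    rw [← separable_prod_X_sub_C_iff, ← hθ]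
    exact (PerfectField.separable_iff_squarefree.2 hs).map
  have hAm := hG.monic
  have hcop : IsCoprime (A.map v.embedding) (U.map v.embedding) :=
    hAU.map (mapRingHom v.embedding)
  have hP' : (U.map v.embedding) ^ 2 - (∏ i, (X - C (θ i))) * (W.map v.embedding) ^ 2 =
      (A.map v.embedding) ^ M := by
    rw [← hθ, ← Polynomial.map_pow, ← Polynomial.map_pow, ← Polynomial.map_pow,
      ← Polynomial.map_mul, ← Polynomial.map_sub, hP]
  have h := hC θ (A.map v.embedding) (U.map v.embedding) (W.map v.embedding) M hinj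
    (hAm.map _) (by rw [hAm.natDegree_map, hG.two]) hcop hM hMe hP'
  have h1 : ‖dsc θ‖ = v (discr f) := by
    rw [← InfinitePlace.norm_embedding_eq, ← H69.discr_map_five _ hf h5, hθ]
    rcases dsr ℂ θ with h | h <;> rw [h]
    rw [norm_neg]
  have h2 : rho (fun z : ℂ => ‖z‖) θ = spr (f.map v.embedding) := by
    rw [hθ]
    exact rho_eq_spr
  have h3 : Lv (fun z : ℂ => ‖z‖) (∏ i, (X - C (θ i))) (A.map v.embedding)
      (U.map v.embedding) M = Lv v f A U M := by
    rw [← hθ]
    unfold Lv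
    have e1 : (4 * f.map v.embedding : ℂ[X]) = (4 * f).map v.embedding := by
      rw [Polynomial.map_mul, Polynomial.map_ofNat]
    have e2 : (2 * U.map v.embedding : ℂ[X]) = (2 * U).map v.embedding := by
      rw [Polynomial.map_mul, Polynomial.map_ofNat]
    rw [e1, e2, res_map, res_map]
    simp only [InfinitePlace.norm_embedding_eq]
  rw [h1, h2, h3] at h
  exact h

end Pool.Agent.SZT.H95
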