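import Pool.Agent.SZT.StmtsC

/-!
# SZT, row UNQ: uniqueness of reduced ideals
-/

set_option autoImplicit false

namespace Pool.Agent.SZT.H95

open Polynomial NumberField H58Q

theorem unq (hMII : MiiStatement) (hMIK : MikStatement) (hNRP : NrpStatement) : UnqStatement := by
  intro K _ f A B A' B' h2 hsq hf5 hM hM' hA hA' hS
  have hd : f.natDegree = 2 * 2 + 1 := by rw [hf5]
  have hdom : IsDomain (Q K f) := isDomain hd
  obtain ⟨a, b, ha, hb, hab⟩ := hS
  have hdvd' : A' ∣ (-B') ^ 2 - f := by rw [neg_sq]; exact hM'.dvd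
  have hdvdn : A ∣ (-B) ^ 2 - f := by rw [neg_sq]; exact hM.dvd
  have hmii := hMII K f A B h2 hsq hM.dvd
  have hmii' := hMII K f A' B' h2 hsq hM'.dvd
  -- `(a) J = (b A')`
  have e1 : Ideal.span {a} * (MI f A B * MI f A' (-B')) =
      Ideal.span {b * (⟨A', 0⟩ : Q K f)} := by
    rw [← mul_assoc, hab, mul_assoc, hmii', Ideal.span_singleton_mul_span_singleton]
  obtain ⟨h, hh⟩ : ∃ h : Q K f, b * (⟨A', 0⟩ : Q K f) = a * h := by
    have m1 : b * (⟨A', 0⟩ : Q K f) ∈ Ideal.span {a} * (MI f A B * MI f A' (-B')) := by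
      rw [e1]
      exact Ideal.mem_span_singleton_self _
    have m2 : b * (⟨A', 0⟩ : Q K f) ∈ Ideal.span {a} := Ideal.mul_le_left m1
    exact Ideal.mem_span_singleton.1 m2
  have e2 : MI f A B * MI f A' (-B') = Ideal.span {h} := by
    rw [hh, ← Ideal.span_singleton_mul_span_singleton] at e1
    exact (Ideal.span_singleton_mul_right_inj ha).1 e1
  obtain ⟨U, W⟩ := h
  obtain ⟨c, hc, hn⟩ := hNRP K f A B A' B' U W h2 hsq hf5 hM.monic hM'.monic hM.dvd hM'.dvd e2
  have hdeg : (C c * (A * A')).natDegree = A.natDegree + A'.natDegree := by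
    rw [natDegree_C_mul hc, hM.monic.natDegree_mul hM'.monic]
  have hW : W = 0 := by
    have m1 : (⟨U, W⟩ : Q K f).norm.natDegree ≤ 4 := by
      rw [norm_eq]
      show (U ^ 2 - f * W ^ 2).natDegree ≤ 4
      rw [hn, hdeg]
      omega
    rcases ((natDegree_norm_le_iff hd _ 4).1 m1).2 with m2 | m2
    · exact m2
    · omega
  rw [hW] at hn e2
  have hn' : U ^ 2 = C c * (A * A') := by
    rw [← hn]
    ring
  have hCA : C c * (A * A') ≠ 0 :=
    mul_ne_zero (C_ne_zero.2 hc) (mul_ne_zero hM.monic.ne_zero hM'.monic.ne_zero)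
  have hU0 : U ≠ 0 := by
    intro h0
    rw [h0] at hn'
    exact hCA (by rw [← hn']; ring)
  have hUdeg : 2 * U.natDegree = A.natDegree + A'.natDegree := by
    rw [← hdeg, ← hn', natDegree_pow]
  have hmem : (⟨U, 0⟩ : Q K f) ∈ MI f A B * MI f A' (-B') := by
    rw [e2]
    exact Ideal.mem_span_singleton_self _
  have hAU : A ∣ U := by
    have m1 := (hMIK K f A B U 0 hM.dvd).1 (Ideal.mul_le_left hmem)
    rwa [zero_mul, add_zero] at m1
  have hAU' : A' ∣ U := by
    have m1 := (hMIK K f A' (-B') U 0 hdvd').1 (Ideal.mul_le_right hmem)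
    rwa [zero_mul, add_zero] at m1
  have hd1 := natDegree_le_of_dvd hAU hU0
  have hd2 := natDegree_le_of_dvd hAU' hU0
  have hUA : U = C U.leadingCoeff * A :=
    eq_leadingCoeff_mul_of_monic_of_dvd_of_natDegree_le hM.monic hAU (by omega)
  have hUA' : U = C U.leadingCoeff * A' :=
    eq_leadingCoeff_mul_of_monic_of_dvd_of_natDegree_le hM'.monic hAU' (by omega)
  have hlc : U.leadingCoeff ≠ 0 := leadingCoeff_ne_zero.2 hU0
  have hAA : A = A' := by
    have m1 : C U.leadingCoeff * A = C U.leadingCoeff * A' := by rw [← hUA, ← hUA']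
    exact mul_left_cancel₀ (C_ne_zero.2 hlc) m1
  -- `J = (A)`
  have e3 : Ideal.span {(⟨U, 0⟩ : Q K f)} = Ideal.span {(⟨A, 0⟩ : Q K f)} := by
    apply Ideal.span_singleton_eq_span_singleton.2
    have hu : IsUnit (⟨C U.leadingCoeff, 0⟩ : Q K f) := by
      refine IsUnit.of_mul_eq_one (⟨C U.leadingCoeff⁻¹, 0⟩ : Q K f) ?_
      ext1
      · simp only [QuadraticAlgebra.re_mul, QuadraticAlgebra.re_one]
        rw [mul_zero, add_zero, ← C_mul, mul_inv_cancel₀ hlc, C_1]
      · simp only [QuadraticAlgebra.im_mul, QuadraticAlgebra.im_one]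
        ring
    have hm : (⟨U, 0⟩ : Q K f) = (⟨A, 0⟩ : Q K f) * ⟨C U.leadingCoeff, 0⟩ := by
      ext1
      · simp only [QuadraticAlgebra.re_mul]
        rw [mul_zero, add_zero, mul_comm A]
        exact hUA
      · simp only [QuadraticAlgebra.im_mul]
        ring
    rw [hm]
    exact (associated_mul_unit_left _ _ hu)
  -- `I'* = I*`
  have hA0 : (⟨A, 0⟩ : Q K f) ≠ 0 := by
    intro h0
    exact hM.monic.ne_zero (congrArg QuadraticAlgebra.re h0)
  have e4 : MI f A B * MI f A' (-B') = MI f A B * MI f A (-B) := by rw [e2, e3, hmii]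
  have e5 : MI f A' (-B') = MI f A (-B) := by
    have m1 := congrArg (fun X => MI f A (-B) * X) e4
    simp only [← mul_assoc] at m1
    rw [mul_comm (MI f A (-B)) (MI f A B), hmii] at m1
    exact (Ideal.span_singleton_mul_right_inj hA0).1 m1
  have e6 : (⟨B', 1⟩ : Q K f) ∈ MI f A (-B) := by
    rw [← e5]
    have m1 : (⟨-(-B'), 1⟩ : Q K f) ∈ MI f A' (-B') := by
      unfold MI
      exact Ideal.subset_span (by simp)
    rwa [neg_neg] at m1
  have e7 : A ∣ B' - B := by
    have m1 := (hMIK K f A (-B) B' 1 hdvdn).1 e6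
    rwa [one_mul, ← sub_eq_add_neg] at m1
  refine ⟨hAA, ?_⟩
  have e8 : (B' - B).degree < A.degree := by
    refine (degree_sub_le _ _).trans_lt (max_lt ?_ hM.deg)
    rw [hAA]
    exact hM'.deg
  exact (sub_eq_zero.1 (eq_zero_of_dvd_of_degree_lt e7 e8)).symm

end Pool.Agent.SZT.H95
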